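import Mathlib

/-!
# `K_{3k+4}` is a semi-arc `k`-visibility graph for every `k`
-/

namespace Pool.Agent.Results.MP_e2d93f_co.CompleteGraphs

open Real

/-- The point with the polar coordinates `(r, α)`; `r` may be negative (the point is then
`(|r|, α + π)`). -/
noncomputable def pt (r α : ℝ) : ℂ := (r : ℂ) * Complex.exp ((α : ℂ) * Complex.I)

/-- An arc centred at the origin, of radius `r`, from the angle `α₁` to the angle `α₂`. -/
structure Arc where
  r : ℝ
  α₁ : ℝ
  α₂ : ℝ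
  r_pos : 0 < r
  nonneg : 0 ≤ α₁
  lt : α₁ < 2 * π
  le : α₁ ≤ α₂
  short : α₂ - α₁ < 2 * π

/-- the points of an arc -/
def Arc.set (a : Arc) : Set ℂ := {z | ∃ α, a.α₁ ≤ α ∧ α ≤ a.α₂ ∧ z = pt a.r α}

/-- A non-degenerate cone: the region covered by the segments from `(ρ₁, θ)` to `(ρ₂, θ)`,
`θ₁ ≤ θ ≤ θ₂`. If `ρ₁` is negative and `ρ₂` positive, the cone passes through the origin and its
two radial sides intersect there. -/
structure Cone where
  ρ₁ : ℝ
  ρ₂ : ℝ
  θ₁ : ℝ
  θ₂ : ℝ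
  ne₁ : ρ₁ ≠ 0
  ne₂ : ρ₂ ≠ 0
  lt : ρ₁ < ρ₂
  angle : θ₁ < θ₂
  small : θ₂ - θ₁ < π

/-- the points of a cone -/
def Cone.set (C : Cone) : Set ℂ :=
  {z | ∃ ρ θ, C.ρ₁ ≤ ρ ∧ ρ ≤ C.ρ₂ ∧ C.θ₁ ≤ θ ∧ θ ≤ C.θ₂ ∧ z = pt ρ θ}

/-- the first circular side -/
def Cone.side₁ (C : Cone) : Set ℂ := {z | ∃ θ, C.θ₁ ≤ θ ∧ θ ≤ C.θ₂ ∧ z = pt C.ρ₁ θ}

/-- the second circular side -/
def Cone.side₂ (C : Cone) : Set ℂ := {z | ∃ θ, C.θ₁ ≤ θ ∧ θ ≤ C.θ₂ ∧ z = pt C.ρ₂ θ}

/-- There is a cone whose first circular side is in the arc `a`, whose second one is in the arc `b`,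
and which meets at most `k` other arcs of the family. -/
def Sees {ι : Type} (k : ℕ) (F : ι → Arc) (a b : ι) : Prop :=
  ∃ C : Cone, C.side₁ ⊆ (F a).set ∧ C.side₂ ⊆ (F b).set ∧
    {c | c ≠ a ∧ c ≠ b ∧ ((F c).set ∩ C.set).Nonempty}.encard ≤ k

/-- `G` is a semi-arc `k`-visibility graph: it has a representation in which the negative endpoint
of every arc is on the positive `x`-axis. -/
def SemiArcVisibility {V : Type} (k : ℕ) (G : SimpleGraph V) : Prop :=
  ∃ F : V → Arc, (∀ u v, u ≠ v → Disjoint (F u).set (F v).set) ∧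
    (∀ v, (F v).α₁ = 0) ∧
    ∀ u v, u ≠ v → (G.Adj u v ↔ Sees k F u v ∨ Sees k F v u)

theorem norm_pt (r α : ℝ) : ‖pt r α‖ = |r| := by
  unfold pt
  rw [norm_mul, Complex.norm_exp_ofReal_mul_I, mul_one, Complex.norm_real, Real.norm_eq_abs]

theorem pt_neg (r α : ℝ) : pt (-r) α = pt r (α + π) := by
  unfold pt
  push_cast
  rw [add_mul, Complex.exp_add, Complex.exp_pi_mul_I]
  ring

/-- uniqueness of polar coordinates -/
theorem pt_inj {r s α β : ℝ} (hr : 0 < r) (hs : 0 < s) (h1 : 0 ≤ α) (h2 : α < 2 * π) (h3 : 0 ≤ β)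
    (h4 : β < 2 * π) (h : pt r α = pt s β) : r = s ∧ α = β := by
  have h5 : r = s := by
    have := congrArg norm h
    rwa [norm_pt, norm_pt, abs_of_pos hr, abs_of_pos hs] at this
  subst h5
  refine ⟨rfl, ?_⟩
  unfold pt at h
  have h6 : Complex.exp ((α : ℂ) * Complex.I) = Complex.exp ((β : ℂ) * Complex.I) :=
    mul_left_cancel₀ (by exact_mod_cast ne_of_gt hr) h
  obtain ⟨m, hm⟩ := Complex.exp_eq_exp_iff_exists_int.1 h6
  have h7 : (α : ℂ) = β + m * (2 * π) := by
    have : ((α : ℂ) - (β + m * (2 * π))) * Complex.I = 0 := by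
      rw [sub_mul, hm]; ring
    have := (mul_eq_zero.1 this).resolve_right Complex.I_ne_zero
    linear_combination this
  have h8 : α = β + m * (2 * π) := by exact_mod_cast h7
  have hpi : (0 : ℝ) < 2 * π := by positivity
  have hm0 : m = 0 := by
    have a1 : (m : ℝ) * (2 * π) < 1 * (2 * π) := by linarith
    have a2 : (-1 : ℝ) * (2 * π) < m * (2 * π) := by linarith
    have b1 : (m : ℝ) < 1 := lt_of_mul_lt_mul_right a1 hpi.le
    have b2 : (-1 : ℝ) < m := lt_of_mul_lt_mul_right a2 hpi.le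
    have b1' : m < 1 := by exact_mod_cast b1
    have b2' : -1 < m := by exact_mod_cast b2
    omega
  rw [h8, hm0]
  simp

/-! ### The representation -/

/-- the position of the end of the arc `i` among all `3 k + 4` ends (modulo `π`) -/
def pos (k i : ℕ) : ℕ := if i ≤ k + 1 then k + 2 + i else if i ≤ 2 * k + 2 then i - k - 1 else i + 1

theorem pos_pos (k i : ℕ) : 1 ≤ pos k i := by
  unfold pos
  split_ifs <;> omega

theorem pos_le {k i : ℕ} (h : i < 3 * k + 4) : pos k i ≤ 3 * k + 4 := by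
  unfold pos
  split_ifs <;> omega

/-- the unit of angle -/
noncomputable def δ (k : ℕ) : ℝ := π / (3 * k + 5)

theorem δ_pos (k : ℕ) : 0 < δ k := by
  unfold δ
  positivity

theorem δ_mul (k : ℕ) : (3 * k + 5 : ℝ) * δ k = π := by
  unfold δ
  field_simp

/-- the end angle of the arc `i` -/
noncomputable def fin (k i : ℕ) : ℝ := (if i ≤ k + 1 then 0 else π) + pos k i * δ k

theorem pos_mul_lt {k i : ℕ} (h : i < 3 * k + 4) : (pos k i : ℝ) * δ k < π := by
  have h1 : ((pos k i : ℕ) : ℝ) ≤ 3 * k + 4 := by exact_mod_cast pos_le h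
  have h2 := δ_mul k
  have h3 := δ_pos k
  nlinarith

theorem fin_lt {k i : ℕ} (h : i < 3 * k + 4) : fin k i < 2 * π := by
  have h1 := pos_mul_lt h
  have h2 := Real.pi_pos
  unfold fin
  split_ifs <;> linarith

theorem fin_pos (k i : ℕ) : 0 ≤ fin k i := by
  have h2 := Real.pi_pos
  have h3 := δ_pos k
  have : 0 ≤ (pos k i : ℝ) * δ k := by positivity
  unfold fin
  split_ifs <;> linarith

/-- the family -/
noncomputable def F (k : ℕ) (i : Fin (3 * k + 4)) : Arc where
  r := (i : ℕ) + 1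
  α₁ := 0
  α₂ := fin k i
  r_pos := by positivity
  nonneg := le_refl _
  lt := by positivity
  le := fin_pos k i
  short := by
    rw [sub_zero]
    exact fin_lt i.2

theorem F_disjoint (k : ℕ) (u v : Fin (3 * k + 4)) (h : u ≠ v) :
    Disjoint (F k u).set (F k v).set := by
  rw [Set.disjoint_left]
  rintro z ⟨α, -, -, rfl⟩ ⟨β, -, -, hz⟩
  have := congrArg norm hz
  rw [norm_pt, norm_pt, abs_of_pos (F k u).r_pos, abs_of_pos (F k v).r_pos] at this
  change ((u : ℕ) : ℝ) + 1 = (v : ℕ) + 1 at this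
  have h2 : ((u : ℕ) : ℝ) = (v : ℕ) := by linarith
  exact h (Fin.ext (by exact_mod_cast h2))

/-- a point of the arc `c` with a polar angle in `(0, π)` and an arbitrary first coordinate -/
theorem mem_arc {k : ℕ} {c : Fin (3 * k + 4)} {ρ θ : ℝ} (h1 : 0 < θ) (h2 : θ < π)
    (h : pt ρ θ ∈ (F k c).set) :
    (ρ = (c : ℕ) + 1 ∧ θ ≤ fin k c) ∨ (ρ = -((c : ℕ) + 1) ∧ θ + π ≤ fin k c) := by
  obtain ⟨α, a1, a2, a3⟩ := h
  have a1 : 0 ≤ α := a1
  have a2 : α ≤ fin k c := a2
  have a3 : pt ρ θ = pt ((c : ℕ) + 1) α := a3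
  have hc : (0 : ℝ) < (c : ℕ) + 1 := by positivity
  have hf := fin_lt c.2
  rcases lt_trichotomy ρ 0 with hρ | hρ | hρ
  · right
    have e : pt ρ θ = pt (-ρ) (θ + π) := by rw [← pt_neg, neg_neg]
    rw [e] at a3
    obtain ⟨b1, b2⟩ := pt_inj (by linarith) hc (by linarith) (by linarith) a1 (by linarith) a3
    exact ⟨by linarith, by linarith⟩
  · exfalso
    have := congrArg norm a3
    rw [norm_pt, norm_pt, hρ, abs_zero, abs_of_pos hc] at this
    linarith
  · left
    obtain ⟨b1, b2⟩ := pt_inj hρ hc h1.le (by linarith) a1 (by linarith) a3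
    exact ⟨b1, by linarith⟩

theorem encard_Ico {n : ℕ} (S : Set (Fin n)) (a b k : ℕ) (h : ∀ c ∈ S, a ≤ (c : ℕ) ∧ (c : ℕ) < b)
    (hab : b ≤ a + k) : S.encard ≤ k := by
  have h1 : S.encard = (Fin.val '' S).encard := (Fin.val_injective.encard_image S).symm
  rw [h1]
  have h2 : Fin.val '' S ⊆ ((Finset.Ico a b : Finset ℕ) : Set ℕ) := by
    rintro _ ⟨c, hc, rfl⟩
    rw [Finset.mem_coe, Finset.mem_Ico]
    exact h c hc
  refine (Set.encard_le_encard h2).trans ?_
  rw [Set.encard_coe_eq_coe_finsetCard, Nat.card_Ico]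
  exact_mod_cast (by omega : b - a ≤ k)

/-- arcs with close radii see each other -/
theorem sees_near {k : ℕ} {i j : Fin (3 * k + 4)} (hij : i < j) (h : (j : ℕ) ≤ i + k + 1) :
    Sees k (F k) i j := by
  have hδ := δ_pos k
  have hπ : δ k < π := by
    have := δ_mul k
    nlinarith
  have hij' : ((i : ℕ) : ℝ) < (j : ℕ) := by exact_mod_cast hij
  have hfin : ∀ c : ℕ, δ k ≤ fin k c := by
    intro c
    have h1 : (1 : ℝ) ≤ pos k c := by exact_mod_cast pos_pos k c
    have h2 : δ k ≤ pos k c * δ k := by nlinarith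
    have h3 := Real.pi_pos
    unfold fin
    split_ifs <;> linarith
  refine ⟨⟨(i : ℕ) + 1, (j : ℕ) + 1, δ k / 3, δ k * 2 / 3, by positivity, by positivity,
    by linarith, by linarith, by linarith⟩, ?_, ?_, ?_⟩
  · rintro z ⟨θ, h1, h2, rfl⟩
    have h1 : δ k / 3 ≤ θ := h1
    have h2 : θ ≤ δ k * 2 / 3 := h2
    refine ⟨θ, ?_, ?_, rfl⟩
    · change (0 : ℝ) ≤ θ
      linarith
    · have := hfin i
      change θ ≤ fin k i
      linarith
  · rintro z ⟨θ, h1, h2, rfl⟩
    have h1 : δ k / 3 ≤ θ := h1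
    have h2 : θ ≤ δ k * 2 / 3 := h2
    refine ⟨θ, ?_, ?_, rfl⟩
    · change (0 : ℝ) ≤ θ
      linarith
    · have := hfin j
      change θ ≤ fin k j
      linarith
  · refine encard_Ico _ (i + 1) j k ?_ (by omega)
    rintro c ⟨hci, hcj, z, hz, ρ, θ, r1, r2, t1, t2, rfl⟩
    have r1 : ((i : ℕ) : ℝ) + 1 ≤ ρ := r1
    have r2 : ρ ≤ ((j : ℕ) : ℝ) + 1 := r2
    have t1 : δ k / 3 ≤ θ := t1
    have t2 : θ ≤ δ k * 2 / 3 := t2
    have hi0 : (0 : ℝ) ≤ (i : ℕ) := Nat.cast_nonneg _
    have hc0 : (0 : ℝ) ≤ (c : ℕ) := Nat.cast_nonneg _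
    rcases mem_arc (by linarith) (by linarith) hz with ⟨e, -⟩ | ⟨e, -⟩
    · have a1 : ((i : ℕ) : ℝ) ≤ (c : ℕ) := by linarith
      have a2 : ((c : ℕ) : ℝ) ≤ (j : ℕ) := by linarith
      have a1' : (i : ℕ) ≤ c := by exact_mod_cast a1
      have a2' : (c : ℕ) ≤ j := by exact_mod_cast a2
      have b1 : (c : ℕ) ≠ i := fun h => hci (Fin.ext h)
      have b2 : (c : ℕ) ≠ j := fun h => hcj (Fin.ext h)
      omega
    · exfalso
      linarith

/-- two arcs see each other through the origin: the line of sight is in the window number `t` -/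
theorem sees_origin {k : ℕ} {i j : Fin (3 * k + 4)} (t a b : ℕ) (ht : t + 1 ≤ 3 * k + 4)
    (hi : k + 1 < (i : ℕ) ∨ t + 1 ≤ pos k i) (hj : k + 1 < (j : ℕ)) (hj' : t + 1 ≤ pos k j)
    (hab : b ≤ a + k)
    (hblock : ∀ c : ℕ, c < 3 * k + 4 → c ≠ i → c ≠ j →
      ((c < i ∧ (k + 1 < c ∨ t + 1 ≤ pos k c)) ∨ (c < j ∧ k + 1 < c ∧ t + 1 ≤ pos k c)) →
      a ≤ c ∧ c < b) :
    Sees k (F k) j i := by
  have hδ := δ_pos k
  have hmul := δ_mul k
  have ht' : (t : ℝ) + 1 ≤ 3 * k + 4 := by exact_mod_cast ht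
  have ht0 : (0 : ℝ) ≤ t := Nat.cast_nonneg _
  have hwin : ((t : ℝ) + 1) * δ k < π := by nlinarith
  have htδ : (0 : ℝ) ≤ t * δ k := by positivity
  have up : ∀ c : ℕ, t + 1 ≤ pos k c → ((t : ℝ) + 1) * δ k ≤ pos k c * δ k := by
    intro c hc
    have : ((t : ℝ) + 1) ≤ pos k c := by exact_mod_cast hc
    exact mul_le_mul_of_nonneg_right this hδ.le
  have lo : ∀ c : ℕ, ¬ t + 1 ≤ pos k c → (pos k c : ℝ) * δ k ≤ t * δ k := by
    intro c hc
    have : (pos k c : ℝ) ≤ t := by exact_mod_cast (by omega : pos k c ≤ t)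
    exact mul_le_mul_of_nonneg_right this hδ.le
  have hexp : ((t : ℝ) + 1) * δ k = t * δ k + δ k := by ring
  have hpi := Real.pi_pos
  refine ⟨⟨-((j : ℕ) + 1), (i : ℕ) + 1, t * δ k + δ k / 3, t * δ k + δ k * 2 / 3,
    neg_ne_zero.2 (by positivity), by positivity, ?_, by linarith, by linarith⟩, ?_, ?_, ?_⟩
  · have h1 : (0 : ℝ) ≤ (i : ℕ) := Nat.cast_nonneg _
    have h2 : (0 : ℝ) ≤ (j : ℕ) := Nat.cast_nonneg _
    linarith
  · rintro z ⟨θ, h1, h2, rfl⟩
    have h1 : t * δ k + δ k / 3 ≤ θ := h1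
    have h2 : θ ≤ t * δ k + δ k * 2 / 3 := h2
    change pt (-((j : ℕ) + 1)) θ ∈ _
    rw [pt_neg]
    refine ⟨θ + π, ?_, ?_, rfl⟩
    · change (0 : ℝ) ≤ θ + π
      linarith
    · change θ + π ≤ fin k j
      unfold fin
      rw [if_neg (by omega)]
      have := up j hj'
      linarith
  · rintro z ⟨θ, h1, h2, rfl⟩
    have h1 : t * δ k + δ k / 3 ≤ θ := h1
    have h2 : θ ≤ t * δ k + δ k * 2 / 3 := h2
    refine ⟨θ, ?_, ?_, rfl⟩
    · change (0 : ℝ) ≤ θ
      linarith
    · change θ ≤ fin k i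
      unfold fin
      have hp : 0 ≤ (pos k i : ℝ) * δ k := by positivity
      rcases hi with hi | hi
      · rw [if_neg (by omega)]
        linarith
      · have := up i hi
        split_ifs <;> linarith
  · refine encard_Ico _ a b k ?_ hab
    rintro c ⟨hci, hcj, z, hz, ρ, θ, r1, r2, t1, t2, rfl⟩
    have r1 : -(((j : ℕ) : ℝ) + 1) ≤ ρ := r1
    have r2 : ρ ≤ ((i : ℕ) : ℝ) + 1 := r2
    have t1 : t * δ k + δ k / 3 ≤ θ := t1
    have t2 : θ ≤ t * δ k + δ k * 2 / 3 := t2
    have b1 : (c : ℕ) ≠ i := fun h => hcj (Fin.ext h)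
    have b2 : (c : ℕ) ≠ j := fun h => hci (Fin.ext h)
    refine hblock c c.2 b1 b2 ?_
    have hlow : ¬ (t + 1 ≤ pos k c) → (pos k c : ℝ) * δ k < θ := by
      intro h
      have := lo c h
      linarith
    rcases mem_arc (by linarith) (by linarith) hz with ⟨e, e'⟩ | ⟨e, e'⟩
    · left
      have a1 : ((c : ℕ) : ℝ) ≤ (i : ℕ) := by linarith
      have a1' : (c : ℕ) ≤ i := by exact_mod_cast a1
      refine ⟨by omega, ?_⟩
      by_contra hc
      push Not at hc
      have h1 := hlow (by omega)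
      unfold fin at e'
      rw [if_pos hc.1] at e'
      linarith
    · right
      have a1 : ((c : ℕ) : ℝ) ≤ (j : ℕ) := by linarith
      have a1' : (c : ℕ) ≤ j := by exact_mod_cast a1
      have hk : k + 1 < (c : ℕ) := by
        by_contra hc
        unfold fin at e'
        rw [if_pos (by omega)] at e'
        have := pos_mul_lt c.2
        linarith
      refine ⟨by omega, hk, ?_⟩
      by_contra hc
      have h1 := hlow hc
      unfold fin at e'
      rw [if_neg (by omega)] at e'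
      linarith

theorem sees_all {k : ℕ} {i j : Fin (3 * k + 4)} (hij : i < j) :
    Sees k (F k) i j ∨ Sees k (F k) j i := by
  have hij' : (i : ℕ) < j := hij
  have hjl := j.2
  by_cases h : (j : ℕ) ≤ i + k + 1
  · exact Or.inl (sees_near hij h)
  · right
    by_cases h1 : (i : ℕ) ≤ k + 1
    · by_cases h2 : (j : ℕ) ≤ 2 * k + 2
      · refine sees_origin ((j : ℕ) - k - 2) 0 i (by omega) ?_ (by omega) ?_ (by omega) ?_
        · right; unfold pos; rw [if_pos h1]; omega
        · unfold pos; rw [if_neg (by omega), if_pos h2]; omega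
        · intro c hc hci hcj hh
          rcases hh with ⟨a1, a2⟩ | ⟨a1, a2, a3⟩
          · omega
          · exfalso
            unfold pos at a3
            rw [if_neg (by omega), if_pos (by omega)] at a3
            omega
      · refine sees_origin (k + 1 + i) (2 * k + 3) j (by omega) ?_ (by omega) ?_ (by omega) ?_
        · right; unfold pos; rw [if_pos h1]; omega
        · unfold pos; rw [if_neg (by omega), if_neg (by omega)]; omega
        · intro c hc hci hcj hh
          rcases hh with ⟨a1, a2⟩ | ⟨a1, a2, a3⟩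
          · exfalso
            rcases a2 with a2 | a2
            · omega
            · unfold pos at a2
              rw [if_pos (by omega)] at a2
              omega
          · unfold pos at a3
            rw [if_neg (by omega)] at a3
            split_ifs at a3 <;> omega
    · by_cases h2 : (i : ℕ) ≤ 2 * k + 2
      · refine sees_origin (j : ℕ) (k + 2) i (by omega) (Or.inl (by omega)) (by omega) ?_
          (by omega) ?_
        · unfold pos; rw [if_neg (by omega), if_neg (by omega)]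
        · intro c hc hci hcj hh
          rcases hh with ⟨a1, a2⟩ | ⟨a1, a2, a3⟩
          · rcases a2 with a2 | a2
            · omega
            · unfold pos at a2
              split_ifs at a2 <;> omega
          · exfalso
            unfold pos at a3
            rw [if_neg (by omega)] at a3
            split_ifs at a3 <;> omega
      · exfalso
        omega

/-- **`K_{3k+4}` is a semi-arc `k`-visibility graph for every `k ≥ 0`.** -/
theorem result : ∀ k : ℕ, SemiArcVisibility k (⊤ : SimpleGraph (Fin (3 * k + 4))) := by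
  intro k
  refine ⟨F k, F_disjoint k, ?_, ?_⟩
  · intro v
    rfl
  · intro u v huv
    rw [SimpleGraph.top_adj]
    refine ⟨fun _ => ?_, fun _ => huv⟩
    rcases lt_or_gt_of_ne huv with h | h
    · exact sees_all h
    · exact (sees_all h).symm

end Pool.Agent.Results.MP_e2d93f_co.CompleteGraphs
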